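import Pool.Agent.Helper6.HL.Link

/-!
Coding a finite tree by a rooted forest, with control of a local predicate (degrees, classes of the
bipartition).
-/

set_option autoImplicit false

namespace Pool.Agent.Helper66.HL

open Pool.Agent.Helper6.HL Finset Classical

/-- number of children of the vertex a forest hangs at -/
def kids : B → ℕ
  | .nil => 0
  | .cons _ s => kids s + 1

variable {q : ℕ}

/-- number of neighbours -/
noncomputable def deg {V : Type} [Fintype V] (G : SimpleGraph V) (v : V) : ℕ :=
  (univ.filter fun x => G.Adj v x).card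

theorem deg_induce {V : Type} [Fintype V] [DecidableEq V] (G : SimpleGraph V) (v u : V)
    (hadj : ∀ x, G.Adj v x ↔ x = u) (x : ({v}ᶜ : Set V)) :
    deg (G.induce ({v}ᶜ : Set V)) x + (if (x : V) = u then 1 else 0) = deg G x := by
  have h1 : (univ.filter fun y : ({v}ᶜ : Set V) => (G.induce ({v}ᶜ : Set V)).Adj x y).map
      (Function.Embedding.subtype _) = (univ.filter fun y => G.Adj x y).erase v := by
    ext y
    simp only [mem_map, mem_filter, mem_univ, true_and, mem_erase, Function.Embedding.coe_subtype]
    constructor
    · rintro ⟨a, ha, rfl⟩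
      exact ⟨a.2, ha⟩
    · rintro ⟨h1, h2⟩
      exact ⟨⟨y, h1⟩, h2, rfl⟩
  have h2 : deg (G.induce ({v}ᶜ : Set V)) x = ((univ.filter fun y => G.Adj x y).erase v).card := by
    rw [← h1, card_map]; rfl
  by_cases hx : (x : V) = u
  · rw [if_pos hx, h2]
    have : v ∈ univ.filter fun y => G.Adj (x : V) y := by
      simp only [mem_filter, mem_univ, true_and]
      exact ((hadj x).2 hx).symm
    rw [card_erase_add_one this]; rfl
  · rw [if_neg hx, h2, erase_eq_of_notMem]
    · rfl
    · simp only [mem_filter, mem_univ, true_and]
      exact fun h => hx ((hadj x).1 h.symm)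

/-- Every finite tree whose vertices carry forests is coded by a forest; a predicate
`R label (degree) decoration` that survives the removal of a leaf holds for the code. -/
theorem exists_code (w : Fin q → ℝ) (α : Type) (rel : α → α → Prop) (R : α → ℕ → B → Prop)
    (hR : ∀ a b k F G, rel a b → R a (k + 1) F → R b 1 G → R a k (.cons G F)) (n : ℕ) :
    ∀ (V : Type) [Fintype V] [DecidableEq V] (G : SimpleGraph V) (lab : V → α),
    Fintype.card V = n + 1 → G.IsTree → (∀ x y, G.Adj x y → rel (lab x) (lab y)) →
    ∀ F : V → B, (∀ v, R (lab v) (deg G v) (F v)) → ∃ (a : α) (H : B), R a 0 H ∧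
      H.size + 1 = ∑ v, ((F v).size + 1) ∧ Y G (fun v i => w i * M w (F v) i) = X w w H := by
  induction n with
  | zero =>
    intro V _ _ G lab hV _ _ F hF
    obtain ⟨v, hv⟩ := Fintype.card_eq_one_iff.1 hV
    haveI : Unique V := ⟨⟨v⟩, hv⟩
    refine ⟨lab default, F default, ?_, by simp, ?_⟩
    · have h := hF default
      have : deg G default = 0 := by
        rw [deg, card_eq_zero, filter_eq_empty_iff]
        intro x _ hx
        exact absurd hx (by rw [Subsingleton.elim x default]; exact G.irrefl)
      rwa [this] at h
    rw [Y, X, ← (Equiv.funUnique V (Fin q)).symm.sum_comp]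
    refine sum_congr rfl fun i _ => ?_
    rw [if_pos]
    · simp
    · intro a b hab
      exact absurd hab (by rw [Subsingleton.elim a b]; exact G.irrefl)
  | succ n ih =>
    intro V _ _ G lab hV hT hlab F hF
    haveI : Nontrivial V := Fintype.one_lt_card_iff_nontrivial.1 (by omega)
    obtain ⟨v, hv⟩ := hT.exists_vert_degree_one_of_nontrivial
    obtain ⟨u, hu1, hu2⟩ := SimpleGraph.degree_eq_one_iff_existsUnique_adj.1 hv
    have huv : u ≠ v := hu1.ne'
    have hadj : ∀ x, G.Adj v x ↔ x = u := fun x => ⟨fun h => hu2 x h, fun h => h ▸ hu1⟩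
    have hT' : (G.induce ({v}ᶜ : Set V)).IsTree :=
      ⟨hT.connected.induce_compl_singleton_of_degree_eq_one hv, hT.isAcyclic.induce _⟩
    have hcard : Fintype.card ({v}ᶜ : Set V) = n + 1 := by
      rw [Fintype.card_compl_set, hV]; simp
    have hdv : deg G v = 1 := by
      rw [deg, card_eq_one]
      exact ⟨u, by ext x; simp [hadj]⟩
    obtain ⟨a, H, h0, h1, h2⟩ := ih ({v}ᶜ : Set V) (G.induce ({v}ᶜ : Set V)) (fun x => lab x) hcard
      hT' (fun x y hxy => hlab x y hxy)
      (fun x => if (x : V) = u then .cons (F v) (F x) else F x) (by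
        intro x
        have hd := deg_induce G v u hadj x
        by_cases hx : (x : V) = u
        · simp only [hx, if_true]
          rw [if_pos hx] at hd
          refine hR _ (lab v) _ _ _ (hlab _ _ hu1.symm) ?_ ?_
          · rw [hd, ← hx]; exact hF x
          · have := hF v
            rwa [hdv] at this
        · simp only [hx, if_false]
          rw [if_neg hx, add_zero] at hd
          rw [hd]; exact hF x)
    refine ⟨a, H, h0, ?_, ?_⟩
    · rw [h1, Fintype.sum_eq_add_sum_subtype_ne _ v]
      have huv' : u ∈ ({v}ᶜ : Set V) := huv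
      have h3 : ∀ x : ({v}ᶜ : Set V),
          (if (x : V) = u then B.cons (F v) (F x) else F x).size + 1 =
          ((F x).size + 1) + if (x : V) = u then (F v).size + 1 else 0 := fun x => by
        by_cases hx : (x : V) = u
        · simp only [hx, if_true, B.size]; omega
        · simp only [hx, if_false, add_zero]
      rw [sum_congr rfl fun x _ => h3 x, sum_add_distrib]
      have h4 : (∑ x : ({v}ᶜ : Set V), if (x : V) = u then (F v).size + 1 else 0) =
          (F v).size + 1 := by
        rw [Fintype.sum_eq_single (⟨u, huv'⟩ : ({v}ᶜ : Set V))]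
        · simp
        · intro x hx
          rw [if_neg]
          intro h
          exact hx (Subtype.ext h)
      rw [h4, add_comm]
      rfl
    · rw [← h2, Y_leaf G v u huv hadj]
      congr 1
      funext x j
      by_cases hx : (x : V) = u
      · simp only [hx, if_true, M_cons]; ring
      · simp only [hx, if_false, mul_one]

end Pool.Agent.Helper66.HL
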