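import Pool.Agent.Helper66.HL.Code

/-!
The transfer operator of weighted proper colourings, and the insertion of a leg.
-/

set_option autoImplicit false

namespace Pool.Agent.Helper66.HL

open Pool.Agent.Helper6.HL Finset Classical

variable {q : ℕ}

/-- transfer operator -/
noncomputable def K (w f : Fin q → ℝ) (i : Fin q) : ℝ := ∑ j ∈ univ.erase i, w j * f j

/-- the form `∑ w f g` -/
noncomputable def br (w f g : Fin q → ℝ) : ℝ := ∑ i, w i * (f i * g i)

/-- nonnegative and nonincreasing in the weight -/
def Dec (w f : Fin q → ℝ) : Prop := (∀ i, 0 ≤ f i) ∧ ∀ i j, w i ≤ w j → f j ≤ f i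

/-- nonnegative and `w f` nondecreasing in the weight -/
def Inc (w f : Fin q → ℝ) : Prop := (∀ i, 0 ≤ f i) ∧ ∀ i j, w i ≤ w j → w i * f i ≤ w j * f j

variable {w : Fin q → ℝ}

theorem K_eq (f : Fin q → ℝ) (i : Fin q) : K w f i = (∑ j, w j * f j) - w i * f i := by
  rw [K, ← Finset.sum_erase_add Finset.univ _ (Finset.mem_univ i)]
  ring

theorem M_path (k : ℕ) (i : Fin q) : M w (B.path k) i = ((K w)^[k] (fun _ => 1)) i := by
  induction k generalizing i with
  | zero => rfl
  | succ k ih =>
    rw [Function.iterate_succ_apply', B.path, M_cons, M_nil, mul_one, K]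
    exact sum_congr rfl fun j _ => by rw [ih]

theorem M_path' (k : ℕ) : M w (B.path k) = (K w)^[k] (fun _ => 1) := funext fun i => M_path k i

theorem M_cons_K (c s : B) (i : Fin q) : M w (.cons c s) i = K w (M w c) i * M w s i := rfl

theorem br_comm (f g : Fin q → ℝ) : br w f g = br w g f :=
  sum_congr rfl fun i _ => by ring

theorem br_K (f g : Fin q → ℝ) : br w (K w f) g = br w f (K w g) := by
  have e1 : br w (K w f) g = (∑ j, w j * f j) * (∑ i, w i * g i) - ∑ i, w i * (w i * f i * g i) := by
    rw [br, mul_sum, ← sum_sub_distrib]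
    exact sum_congr rfl fun i _ => by rw [K_eq]; ring
  have e2 : br w f (K w g) = (∑ j, w j * g j) * (∑ i, w i * f i) - ∑ i, w i * (w i * f i * g i) := by
    rw [br, mul_sum, ← sum_sub_distrib]
    exact sum_congr rfl fun i _ => by rw [K_eq]; ring
  rw [e1, e2]; ring

theorem br_K_iter (k : ℕ) (f g : Fin q → ℝ) : br w ((K w)^[k] f) g = br w f ((K w)^[k] g) := by
  induction k generalizing f with
  | zero => rfl
  | succ k ih => rw [Function.iterate_succ_apply, ih, br_K, ← Function.iterate_succ_apply' (K w)]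

theorem K_nonneg (hw : ∀ i, 0 ≤ w i) {f : Fin q → ℝ} (hf : ∀ i, 0 ≤ f i) (i : Fin q) :
    0 ≤ K w f i := sum_nonneg fun j _ => mul_nonneg (hw j) (hf j)

theorem iter_nonneg (hw : ∀ i, 0 ≤ w i) (k : ℕ) {f : Fin q → ℝ} (hf : ∀ i, 0 ≤ f i) :
    ∀ i, 0 ≤ ((K w)^[k] f) i := by
  induction k with
  | zero => exact hf
  | succ k ih =>
    intro i
    rw [Function.iterate_succ_apply']
    exact K_nonneg hw ih i

theorem iter_eq_sum (k : ℕ) (g : Fin q → ℝ) (i : Fin q) :
    ((K w)^[k] g) i = ∑ j, ((K w)^[k] (Pi.single j 1)) i * g j := by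
  induction k generalizing i with
  | zero =>
    simp only [Function.iterate_zero, id]
    rw [Finset.sum_eq_single i]
    · simp
    · intro j _ hj
      rw [Pi.single_eq_of_ne hj.symm, zero_mul]
    · intro h; exact absurd (mem_univ i) h
  | succ k ih =>
    simp only [Function.iterate_succ_apply']
    rw [K]
    have h : ∀ l, w l * ((K w)^[k] g) l = ∑ j, w l * ((K w)^[k] (Pi.single j 1)) l * g j := by
      intro l
      rw [ih, mul_sum]
      exact sum_congr rfl fun j _ => by ring
    rw [sum_congr rfl fun l _ => h l, sum_comm]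
    refine sum_congr rfl fun j _ => ?_
    rw [K, sum_mul]

/-- insertion of a leg of length `k` between the branches `h` and `g` -/
theorem insertion (hw : ∀ i, 0 ≤ w i) {h g : Fin q → ℝ} (hh : Dec w h) (hg : Dec w g) (k : ℕ) :
    br w h ((K w)^[k] g) ≤ br w (fun i => h i * g i) ((K w)^[k] (fun _ => 1)) := by
  set N : Fin q → Fin q → ℝ := fun i j => w i * ((K w)^[k] (Pi.single j 1)) i with hN
  have hN0 : ∀ i j, 0 ≤ N i j := fun i j => mul_nonneg (hw i) (iter_nonneg hw k (fun l => by
    by_cases hl : l = j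
    · subst hl; simp
    · rw [Pi.single_eq_of_ne hl]) i)
  have hP : ∀ f g : Fin q → ℝ, br w f ((K w)^[k] g) = ∑ i, ∑ j, N i j * (f i * g j) := by
    intro f g
    refine sum_congr rfl fun i _ => ?_
    rw [iter_eq_sum, mul_sum, mul_sum]
    exact sum_congr rfl fun j _ => by rw [hN]; ring
  have hS : ∀ f g : Fin q → ℝ, br w f ((K w)^[k] g) = br w g ((K w)^[k] f) := by
    intro f g
    rw [← br_K_iter, br_comm]
  have h1 : 0 ≤ ∑ i, ∑ j, N i j * ((h i - h j) * (g i - g j)) := by
    refine sum_nonneg fun i _ => sum_nonneg fun j _ => mul_nonneg (hN0 i j) ?_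
    rcases le_total (w i) (w j) with hij | hij
    · exact mul_nonneg (sub_nonneg.2 (hh.2 i j hij)) (sub_nonneg.2 (hg.2 i j hij))
    · exact mul_nonneg_of_nonpos_of_nonpos (sub_nonpos.2 (hh.2 j i hij))
        (sub_nonpos.2 (hg.2 j i hij))
  have e1 := hP (fun i => h i * g i) (fun _ => 1)
  have e2 := hP (fun _ => 1) (fun i => h i * g i)
  have e3 := hP h g
  have e4 := hP g h
  have s1 := hS (fun i => h i * g i) (fun _ => 1)
  have s2 := hS h g
  have h2 : ∑ i, ∑ j, N i j * ((h i - h j) * (g i - g j)) =
      (∑ i, ∑ j, N i j * (h i * g i * 1)) + (∑ i, ∑ j, N i j * (1 * (h j * g j)))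
      - (∑ i, ∑ j, N i j * (h i * g j)) - (∑ i, ∑ j, N i j * (g i * h j)) := by
    simp only [← sum_add_distrib, ← sum_sub_distrib]
    exact sum_congr rfl fun i _ => sum_congr rfl fun j _ => by ring
  rw [h2, ← e1, ← e2, ← e3, ← e4] at h1
  linarith

theorem Dec.mul {f g : Fin q → ℝ} (hf : Dec w f) (hg : Dec w g) :
    Dec w (fun i => f i * g i) :=
  ⟨fun i => mul_nonneg (hf.1 i) (hg.1 i), fun i j h => mul_le_mul (hf.2 i j h) (hg.2 i j h)
    (hg.1 j) (hf.1 i)⟩

theorem Dec.one : Dec w (fun _ => 1) := ⟨fun _ => zero_le_one, fun _ _ _ => le_rfl⟩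

theorem Inc.one : Inc w (fun _ => 1) := ⟨fun _ => zero_le_one, fun _ _ h => by simpa using h⟩

theorem Inc.K_dec (hw : ∀ i, 0 ≤ w i) {f : Fin q → ℝ} (hf : Inc w f) : Dec w (K w f) := by
  refine ⟨K_nonneg hw hf.1, fun i j h => ?_⟩
  rw [K_eq, K_eq]
  linarith [hf.2 i j h]

theorem Dec.K_inc (hw : ∀ i, 0 ≤ w i) {f : Fin q → ℝ} (hf : Dec w f) : Inc w (K w f) := by
  refine ⟨K_nonneg hw hf.1, fun i j h => ?_⟩
  rcases eq_or_ne i j with hij | hij
  · rw [hij]
  have h1 : w i * f i + w j * f j ≤ ∑ l, w l * f l := by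
    rw [← add_sum_erase univ _ (mem_univ i),
      ← add_sum_erase (univ.erase i) _ (mem_erase.2 ⟨hij.symm, mem_univ j⟩)]
    have := sum_nonneg fun x (_ : x ∈ (univ.erase i).erase j) => mul_nonneg (hw x) (hf.1 x)
    linarith
  rw [K_eq, K_eq]
  have h2 := hf.2 i j h
  have h3 := mul_le_mul_of_nonneg_left h1 (sub_nonneg.2 h)
  have h4 : 0 ≤ w i * w j * (f i - f j) :=
    mul_nonneg (mul_nonneg (hw i) (hw j)) (sub_nonneg.2 h2)
  nlinarith

theorem Dec.M (hw : ∀ i, 0 ≤ w i) (k : ℕ) :
    Dec w (Pool.Agent.Helper6.HL.M w (B.path k)) ∧ Inc w (Pool.Agent.Helper6.HL.M w (B.path k)) := by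
  induction k with
  | zero => exact ⟨Dec.one, Inc.one⟩
  | succ k ih =>
    have h : Pool.Agent.Helper6.HL.M w (B.path (k + 1)) =
        K w (Pool.Agent.Helper6.HL.M w (B.path k)) := by
      rw [M_path', M_path', Function.iterate_succ_apply']
    rw [h]
    exact ⟨ih.2.K_dec hw, ih.1.K_inc hw⟩

/-- merging of two legs in a decreasing context -/
theorem merge (hw : ∀ i, 0 ≤ w i) {h : Fin q → ℝ} (hh : Dec w h) (s t : ℕ) :
    br w h (M w (B.path (s + t))) ≤ br w h (fun i => M w (B.path s) i * M w (B.path t) i) := by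
  have h1 := insertion hw hh (Dec.M hw t).1 s
  rw [M_path' (s + t), Function.iterate_add_apply, ← M_path' t]
  refine h1.trans (le_of_eq ?_)
  rw [← M_path' s]
  exact sum_congr rfl fun i _ => by ring

theorem X_eq_br (h : Fin q → ℝ) (F : B) : X w (fun i => w i * h i) F = br w h (M w F) :=
  sum_congr rfl fun i _ => by ring

theorem X_eq_br' (F : B) : X w w F = br w (fun _ => 1) (M w F) :=
  sum_congr rfl fun i _ => by ring

/-! ### branch vertices in one class -/

/-- `Good true F`: the vertex is in the branch class; `Good false F`: it is in the other class and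
has at most one child -/
def Good : Bool → B → Prop
  | _, .nil => True
  | true, .cons c s => Good false c ∧ Good true s
  | false, .cons c s => Good true c ∧ s = .nil

theorem good_true_cons (c s : B) : Good true (.cons c s) ↔ Good false c ∧ Good true s := Iff.rfl

theorem good_false_cons (c s : B) : Good false (.cons c s) ↔ Good true c ∧ s = .nil := Iff.rfl

theorem good_M (hw : ∀ i, 0 ≤ w i) (F : B) :
    (Good true F → Dec w (M w F)) ∧ (Good false F → Inc w (M w F)) := by
  induction F with
  | nil => exact ⟨fun _ => Dec.one, fun _ => Inc.one⟩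
  | cons c s ihc ihs =>
    refine ⟨fun h => ?_, fun h => ?_⟩
    · exact ((ihc.2 h.1).K_dec hw).mul (ihs.1 h.2)
    · obtain ⟨h1, rfl⟩ := h
      have := (ihc.1 h1).K_inc hw
      refine ⟨fun i => ?_, fun i j hij => ?_⟩
      · rw [M_cons_K, M_nil, mul_one]; exact this.1 i
      · rw [M_cons_K, M_cons_K, M_nil, M_nil, mul_one, mul_one]; exact this.2 i j hij

theorem br_congr (h : Fin q → ℝ) {f g : Fin q → ℝ} (hfg : ∀ i, f i = g i) :
    br w h f = br w h g := sum_congr rfl fun i _ => by rw [hfg i]

theorem br_assoc (h f g : Fin q → ℝ) :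
    br w h (fun i => f i * g i) = br w (fun i => h i * f i) g := sum_congr rfl fun i _ => by ring

theorem good_main (hw : ∀ i, 0 ≤ w i) (n : ℕ) : ∀ F : B, F.size ≤ n → Good true F →
    ∀ h : Fin q → ℝ, Dec w h → br w h (M w (B.path F.size)) ≤ br w h (M w F) := by
  induction n with
  | zero =>
    intro F hF _ h _
    cases F with
    | nil => exact le_rfl
    | cons c s => simp [B.size] at hF
  | succ n ih =>
    intro F hF hG h hh
    cases F with
    | nil => exact le_rfl
    | cons c s =>
      rw [good_true_cons] at hG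
      obtain ⟨hc, hs⟩ := hG
      have hm : Dec w (K w (M w c)) := ((good_M hw c).2 hc).K_dec hw
      simp only [B.size] at hF
      -- straighten the other children
      have h1 : br w (fun i => h i * K w (M w c) i) (M w (B.path s.size)) ≤
          br w (fun i => h i * K w (M w c) i) (M w s) := ih s (by omega) hs _ (hh.mul hm)
      have h2 : br w h (M w (.cons c s)) = br w (fun i => h i * K w (M w c) i) (M w s) := by
        rw [← br_assoc]; rfl
      rw [h2]
      refine le_trans ?_ h1
      have hht : Dec w (fun i => h i * M w (B.path s.size) i) := hh.mul (Dec.M hw _).1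
      have h3 : br w (fun i => h i * K w (M w c) i) (M w (B.path s.size)) =
          br w (fun i => h i * M w (B.path s.size) i) (K w (M w c)) :=
        sum_congr rfl fun i _ => by ring
      rw [h3]
      have h4 : br w (fun i => h i * M w (B.path s.size) i) (M w (B.path (c.size + 1))) ≤
          br w (fun i => h i * M w (B.path s.size) i) (K w (M w c)) := by
        cases c with
        | nil =>
          refine le_of_eq (br_congr _ fun i => ?_)
          show M w (B.path 1) i = K w (M w .nil) i
          rw [M_path]; rfl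
        | cons d t =>
          rw [good_false_cons] at hc
          obtain ⟨hd, rfl⟩ := hc
          have e1 : M w (.cons d .nil) = K w (M w d) := funext fun i => by
            rw [M_cons_K, M_nil, mul_one]
          rw [e1]
          simp only [B.size] at hF ⊢
          have e2 : M w (B.path (d.size + 1 + 0 + 1)) = K w (K w (M w (B.path d.size))) := by
            rw [M_path', M_path', add_zero, Function.iterate_succ_apply',
              Function.iterate_succ_apply']
          rw [e2, ← br_K, ← br_K, ← br_K, ← br_K]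
          exact ih d (by omega) hd _ (((hht.K_inc hw)).K_dec hw)
      refine le_trans ?_ h4
      have h5 := merge hw hh s.size (c.size + 1)
      rw [br_assoc] at h5
      have h6 : (B.cons c s).size = s.size + (c.size + 1) := by simp only [B.size]; ring
      rw [h6]
      exact h5

end Pool.Agent.Helper66.HL
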