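import Pool.Agent.Helper66.HL.Cone

/-!
Small parts: if no part has more than a `1 / (d + 1)` fraction of the total weight, then all
partial products of at most `d` messages are decreasing and `w f` is increasing.
-/

set_option autoImplicit false

namespace Pool.Agent.Helper66.HL

open Pool.Agent.Helper6.HL Finset Classical

variable {q : ℕ} {w : Fin q → ℝ}

/-- a function that decreases slowly: like a product of `e` messages -/
def Tm (w : Fin q → ℝ) (d e : ℕ) (f : Fin q → ℝ) : Prop :=
  Dec w f ∧ ∀ i j, w i ≤ w j → w i ^ e * f i ^ d ≤ w j ^ e * f j ^ d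

theorem Tm.one (d : ℕ) : Tm w d 0 (fun _ => 1) := ⟨Dec.one, fun _ _ _ => by simp⟩

theorem Tm.mul (hw : ∀ i, 0 ≤ w i) {d e e' : ℕ} {f g : Fin q → ℝ} (hf : Tm w d e f)
    (hg : Tm w d e' g) : Tm w d (e + e') (fun i => f i * g i) := by
  refine ⟨hf.1.mul hg.1, fun i j h => ?_⟩
  have h1 := mul_le_mul (hf.2 i j h) (hg.2 i j h)
    (mul_nonneg (pow_nonneg (hw i) _) (pow_nonneg (hg.1.1 i) _))
    (mul_nonneg (pow_nonneg (hw j) _) (pow_nonneg (hf.1.1 j) _))
  calc w i ^ (e + e') * (f i * g i) ^ d = w i ^ e * f i ^ d * (w i ^ e' * g i ^ d) := by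
        rw [pow_add, mul_pow]; ring
    _ ≤ w j ^ e * f j ^ d * (w j ^ e' * g j ^ d) := h1
    _ = w j ^ (e + e') * (f j * g j) ^ d := by rw [pow_add, mul_pow]; ring

theorem Tm.inc (hw : ∀ i, 0 ≤ w i) {d e : ℕ} (hd : d ≠ 0) (he : e ≤ d) {f : Fin q → ℝ}
    (hf : Tm w d e f) : Inc w f := by
  refine ⟨hf.1.1, fun i j h => ?_⟩
  have h1 : (w i * f i) ^ d ≤ (w j * f j) ^ d := by
    have h2 := mul_le_mul (pow_le_pow_left₀ (hw i) h (d - e)) (hf.2 i j h)
      (mul_nonneg (pow_nonneg (hw i) _) (pow_nonneg (hf.1.1 i) _)) (pow_nonneg (hw j) _)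
    have e1 : ∀ k, w k ^ (d - e) * (w k ^ e * f k ^ d) = (w k * f k) ^ d := fun k => by
      rw [← mul_assoc, ← pow_add, Nat.sub_add_cancel he, mul_pow]
    rwa [e1, e1] at h2
  exact le_of_pow_le_pow_left₀ hd (mul_nonneg (hw j) (hf.1.1 j)) h1

theorem K_lower (hw : ∀ i, 0 ≤ w i) {d : ℕ} (hS : ∀ i, (d + 1 : ℝ) * w i ≤ ∑ l, w l)
    {f : Fin q → ℝ} (hf : Dec w f) (hf' : Inc w f) (j : Fin q) :
    (d : ℝ) * (w j * f j) ≤ K w f j := by
  obtain ⟨M, _, hM⟩ := Finset.exists_max_image (univ : Finset (Fin q)) w ⟨j, mem_univ j⟩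
  rcases (hw j).eq_or_lt with h0 | h0
  · rw [← h0]; simpa using K_nonneg hw hf.1 j
  have hM0 : 0 < w M := h0.trans_le (hM j (mem_univ j))
  -- the truncated weights
  have h1 : (d + 1 : ℝ) * w j ≤ ∑ l, min (w l) (w j) := by
    have h2 : (∑ l, w l) * w j ≤ w M * ∑ l, min (w l) (w j) := by
      rw [sum_mul, mul_sum]
      refine sum_le_sum fun l _ => ?_
      rcases le_total (w l) (w j) with h | h
      · rw [min_eq_left h, mul_comm]
        exact mul_le_mul_of_nonneg_right (hM j (mem_univ j)) (hw l)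
      · rw [min_eq_right h]
        exact mul_le_mul_of_nonneg_right (hM l (mem_univ l)) (hw j)
    have h3 : w M * ((d + 1 : ℝ) * w j) ≤ w M * ∑ l, min (w l) (w j) := by
      refine le_trans ?_ h2
      have := mul_le_mul_of_nonneg_right (hS M) (hw j)
      linarith
    exact le_of_mul_le_mul_left h3 hM0
  have h4 : (∑ l ∈ univ.erase j, min (w l) (w j)) * f j ≤ K w f j := by
    rw [K, sum_mul]
    refine sum_le_sum fun l _ => ?_
    rcases le_total (w l) (w j) with h | h
    · rw [min_eq_left h]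
      exact mul_le_mul_of_nonneg_left (hf.2 l j h) (hw l)
    · rw [min_eq_right h]
      exact hf'.2 j l h
  have h5 : (∑ l ∈ univ.erase j, min (w l) (w j)) = (∑ l, min (w l) (w j)) - w j := by
    rw [← add_sum_erase univ _ (mem_univ j), min_self]; ring
  rw [h5] at h4
  have h6 : (d : ℝ) * w j ≤ (∑ l, min (w l) (w j)) - w j := by linarith
  have := mul_le_mul_of_nonneg_right h6 (hf.1 j)
  linarith

theorem Tm.K (hw : ∀ i, 0 ≤ w i) {d : ℕ} (hd : d ≠ 0) (hS : ∀ i, (d + 1 : ℝ) * w i ≤ ∑ l, w l)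
    {f : Fin q → ℝ} (hf : Dec w f) (hf' : Inc w f) :
    Tm w d 1 (Pool.Agent.Helper66.HL.K w f) := by
  refine ⟨hf'.K_dec hw, fun i j h => ?_⟩
  have hd0 : (0 : ℝ) < d := by exact_mod_cast Nat.pos_of_ne_zero hd
  rw [pow_one, pow_one]
  rcases (hw j).eq_or_lt with h0 | h0
  · have : w i = 0 := le_antisymm (h0 ▸ h) (hw i)
    rw [this, ← h0, zero_mul, zero_mul]
  set mi := Pool.Agent.Helper66.HL.K w f i with hmi
  set mj := Pool.Agent.Helper66.HL.K w f j with hmj
  have hmi0 : 0 ≤ mi := K_nonneg hw hf.1 i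
  have hmj0 : 0 ≤ mj := K_nonneg hw hf.1 j
  have hB := K_lower hw hS hf hf' j
  rw [← hmj] at hB
  set ρ := w i / w j with hρ
  have hρw : ρ * w j = w i := div_mul_cancel₀ _ h0.ne'
  have hρ1 : ρ ≤ 1 := (div_le_one h0).2 h
  have hρ0 : 0 ≤ ρ := div_nonneg (hw i) (hw j)
  have hA : mi ≤ mj * (1 + (1 - ρ) / d) := by
    have h1 : mi - mj ≤ (1 - ρ) * (w j * f j) := by
      rw [hmi, hmj, K_eq, K_eq]
      have h2 := mul_le_mul_of_nonneg_left (hf.2 i j h) (hw i)
      have h3 : (1 - ρ) * (w j * f j) = w j * f j - w i * f j := by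
        rw [← hρw]; ring
      rw [h3]; linarith
    have h4 : (1 - ρ) * (w j * f j) ≤ (1 - ρ) * (mj / d) := by
      refine mul_le_mul_of_nonneg_left ?_ (sub_nonneg.2 hρ1)
      rw [le_div_iff₀ hd0]
      linarith
    have h5 : mj * (1 + (1 - ρ) / d) = mj + (1 - ρ) * (mj / d) := by ring
    rw [h5]; linarith
  have hC : (1 + (1 - ρ) / d) ^ d ≤ Real.exp (1 - ρ) := by
    have h1 : 1 + (1 - ρ) / d ≤ Real.exp ((1 - ρ) / d) := by
      have := Real.add_one_le_exp ((1 - ρ) / d)
      linarith
    have h2 : 0 ≤ 1 + (1 - ρ) / d := by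
      have := div_nonneg (sub_nonneg.2 hρ1) hd0.le
      linarith
    refine (pow_le_pow_left₀ h2 h1 d).trans (le_of_eq ?_)
    rw [← Real.exp_nat_mul]
    congr 1
    field_simp
  have hD : w i * Real.exp (1 - ρ) ≤ w j := by
    have h1 : ρ ≤ Real.exp (ρ - 1) := by
      have := Real.add_one_le_exp (ρ - 1)
      linarith
    have h2 : ρ * Real.exp (1 - ρ) ≤ 1 := by
      have := mul_le_mul_of_nonneg_right h1 (Real.exp_pos (1 - ρ)).le
      rwa [← Real.exp_add, show ρ - 1 + (1 - ρ) = 0 by ring, Real.exp_zero] at this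
    rw [← hρw]
    nlinarith [mul_le_mul_of_nonneg_right h2 h0.le]
  calc w i * mi ^ d ≤ w i * (mj * (1 + (1 - ρ) / d)) ^ d :=
        mul_le_mul_of_nonneg_left (pow_le_pow_left₀ hmi0 hA d) (hw i)
    _ = w i * (mj ^ d * (1 + (1 - ρ) / d) ^ d) := by rw [mul_pow]
    _ ≤ w i * (mj ^ d * Real.exp (1 - ρ)) := by
        exact mul_le_mul_of_nonneg_left (mul_le_mul_of_nonneg_left hC (pow_nonneg hmj0 d)) (hw i)
    _ = mj ^ d * (w i * Real.exp (1 - ρ)) := by ring
    _ ≤ mj ^ d * w j := mul_le_mul_of_nonneg_left hD (pow_nonneg hmj0 d)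
    _ = w j * mj ^ d := by ring

/-- every vertex of the forest has at most `d` children -/
def AllKids (d : ℕ) : B → Prop
  | .nil => True
  | .cons c s => kids c ≤ d ∧ AllKids d c ∧ AllKids d s

theorem tm_M (hw : ∀ i, 0 ≤ w i) {d : ℕ} (hd : d ≠ 0) (hS : ∀ i, (d + 1 : ℝ) * w i ≤ ∑ l, w l)
    (F : B) (hF : AllKids d F) : Tm w d (kids F) (M w F) := by
  induction F with
  | nil => exact Tm.one d
  | cons c s ihc ihs =>
    obtain ⟨h1, h2, h3⟩ := hF
    have hc := ihc h2
    have hm := Tm.K hw hd hS hc.1 (hc.inc hw hd h1)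
    have := hm.mul hw (ihs h3)
    rw [add_comm] at this
    exact this

theorem tame_main (hw : ∀ i, 0 ≤ w i) {d : ℕ} (hd : d ≠ 0)
    (hS : ∀ i, (d + 1 : ℝ) * w i ≤ ∑ l, w l) (n : ℕ) : ∀ F : B, F.size ≤ n → AllKids d F →
    ∀ (e : ℕ) (h : Fin q → ℝ), Tm w d e h → e + kids F ≤ d + 1 →
      br w h (M w (B.path F.size)) ≤ br w h (M w F) := by
  induction n with
  | zero =>
    intro F hF _ e h _ _
    cases F with
    | nil => exact le_rfl
    | cons c s => simp [B.size] at hF
  | succ n ih =>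
    intro F hF hG e h hh he
    cases F with
    | nil => exact le_rfl
    | cons c s =>
      obtain ⟨hk, hc, hs⟩ := hG
      have hMc := tm_M hw hd hS c hc
      have hm : Tm w d 1 (K w (M w c)) := Tm.K hw hd hS hMc.1 (hMc.inc hw hd hk)
      simp only [B.size] at hF
      simp only [kids] at he
      have h1 : br w (fun i => h i * K w (M w c) i) (M w (B.path s.size)) ≤
          br w (fun i => h i * K w (M w c) i) (M w s) :=
        ih s (by omega) hs (e + 1) _ (hh.mul hw hm) (by omega)
      have h2 : br w h (M w (.cons c s)) = br w (fun i => h i * K w (M w c) i) (M w s) := by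
        rw [← br_assoc]; rfl
      rw [h2]
      refine le_trans ?_ h1
      have h3 : br w (fun i => h i * K w (M w c) i) (M w (B.path s.size)) =
          br w (fun i => h i * M w (B.path s.size) i) (K w (M w c)) :=
        sum_congr rfl fun i _ => by ring
      rw [h3]
      have hdec : Dec w (fun i => h i * M w (B.path s.size) i) := hh.1.mul (Dec.M hw _).1
      have hinc : Inc w (fun i => h i * M w (B.path s.size) i) := by
        cases s with
        | nil =>
          have : (fun i => h i * M w (B.path (B.nil).size) i) = h := funext fun i => by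
            show h i * M w (B.path 0) i = h i
            rw [B.path, M_nil, mul_one]
          rw [this]
          exact hh.inc hw hd (by simp only [kids] at he; omega)
        | cons a b =>
          simp only [kids] at he
          have e1 : (B.cons a b).size = (a.size + b.size) + 1 := by simp only [B.size]; ring
          have e2 : M w (B.path (B.cons a b).size) = K w (M w (B.path (a.size + b.size))) := by
            rw [e1, M_path', M_path', Function.iterate_succ_apply']
          rw [e2]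
          have h4 : Tm w d 1 (K w (M w (B.path (a.size + b.size)))) :=
            Tm.K hw hd hS (Dec.M hw _).1 (Dec.M hw _).2
          exact (hh.mul hw h4).inc hw hd (by omega)
      have h4 : br w (fun i => h i * M w (B.path s.size) i) (M w (B.path (c.size + 1))) ≤
          br w (fun i => h i * M w (B.path s.size) i) (K w (M w c)) := by
        have e1 : M w (B.path (c.size + 1)) = K w (M w (B.path c.size)) := by
          rw [M_path', M_path', Function.iterate_succ_apply']
        rw [e1, ← br_K, ← br_K]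
        exact ih c (by omega) hc 1 _ (Tm.K hw hd hS hdec hinc) (by omega)
      refine le_trans ?_ h4
      have h5 := merge hw hh.1 s.size (c.size + 1)
      rw [br_assoc] at h5
      have h6 : (B.cons c s).size = s.size + (c.size + 1) := by simp only [B.size]; ring
      rw [h6]
      exact h5

end Pool.Agent.Helper66.HL
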